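import Mathlib
import Pool.Agent.H932R3.Close

set_option autoImplicit false

/-!
# Slopes reachable from an arbitrary integer slope: the walk

Adapted from the walk of `H932R3`, for the base slope `e` in place of a square.
-/

namespace Pool.Agent.H643Z.Ses

open Pool.Agent.H932R3

/-- The slopes reachable from `e` by reflections. -/
inductive Rch (e : ℕ) : ℝ → Prop
  | base : Rch e (e : ℝ)
  | step (σ : ℝ) (ρ : ℕ) : Rch e σ → σ ≤ ρ → Rch e ((ρ : ℝ) ^ 2 / σ)

theorem Rch.pos {e : ℕ} (he : 0 < e) {σ : ℝ} (h : Rch e σ) : 0 < σ := by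
  induction h with
  | base => positivity
  | step σ ρ _ h2 ih =>
    have : (0 : ℝ) < ρ := lt_of_lt_of_le ih h2
    positivity

/-- There is a reachable slope near `p`, with prescribed logarithm. -/
def RQ (δ r p : ℕ) (T : ℝ) : Prop :=
  ∃ σ : ℝ, Rch δ σ ∧ Real.log σ = 2 * (bet p - gam r - T)

section

variable {δ r P : ℕ}

theorem RQ.bound (hδ : 0 < δ) (hP : 15 ≤ P) (hsm : Small r P) {p : ℕ} (hp : P ≤ p) (hpr : p ≤ r)
    (hmod : p % 4 = r % 4) {T : ℝ} (hT : |T| ≤ 1 / (32 * (r : ℝ))) {σ : ℝ} (hσ : Rch δ σ)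
    (hlog : Real.log σ = 2 * (bet p - gam r - T)) :
    (p : ℝ) - 1 / 4 ≤ σ ∧ σ ≤ (p : ℝ) + 1 / 4 := by
  have hp1 : (1 : ℝ) ≤ p := by exact_mod_cast (show 1 ≤ p by omega)
  have hr1 : (p : ℝ) ≤ r := by exact_mod_cast hpr
  refine near_of_log hp1 (hσ.pos hδ) ?_
  have h1 : Real.log σ - Real.log p = 2 * (gam p - gam r - T) := by
    rw [hlog]
    unfold gam
    ring
  have h2 := hsm p hp hpr hmod
  rw [h1]
  have h3 : 1 / (32 * (r : ℝ)) ≤ 1 / (32 * (p : ℝ)) :=
    div_le_div_of_nonneg_left (by norm_num) (by linarith) (by linarith)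
  have h4 : 1 / (8 * (p : ℝ)) = 4 * (1 / (32 * (p : ℝ))) := by
    field_simp
    norm_num
  rw [h4]
  rw [abs_le] at h2 hT ⊢
  constructor <;> linarith [h2.1, h2.2, hT.1, hT.2]

theorem RQ.stepU (hδ : 0 < δ) (hP : 15 ≤ P) (hsm : Small r P) {p : ℕ} (hp : P ≤ p)
    (hpr : p ≤ r) (hmod : p % 4 = r % 4) {T : ℝ} (hT : |T| ≤ 1 / (32 * (r : ℝ)))
    (h : RQ δ r p T) : RQ δ r (p + 4) T := by
  obtain ⟨σ, hσ, hlog⟩ := h
  obtain ⟨h1, h2⟩ := hσ.pos hδ |> fun _ => RQ.bound hδ hP hsm hp hpr hmod hT hσ hlog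
  have hσ0 := hσ.pos hδ
  have hp15 : (15 : ℝ) ≤ p := by exact_mod_cast (show 15 ≤ p by omega)
  have h3 := Rch.step σ (p + 1) hσ (by push_cast; linarith)
  have h4 := Rch.step _ (p + 3) h3 (by
    push_cast
    rw [div_le_iff₀ hσ0]
    nlinarith)
  refine ⟨_, h4, ?_⟩
  push_cast
  rw [Real.log_div (by positivity) (by positivity), Real.log_div (by positivity) (by positivity),
    Real.log_pow, Real.log_pow, hlog, bet_add]
  push_cast
  ring

theorem RQ.stepA (hδ : 0 < δ) (hP : 15 ≤ P) (hsm : Small r P) {p : ℕ} (hp : P ≤ p)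
    (hpr : p ≤ r) (hmod : p % 4 = r % 4) {T : ℝ} (hT : |T| ≤ 1 / (32 * (r : ℝ)))
    (h : RQ δ r p T) : RQ δ r (p + 8) (T - Gk 0 ((p : ℝ) + 3)) := by
  obtain ⟨σ, hσ, hlog⟩ := h
  obtain ⟨h1, h2⟩ := hσ.pos hδ |> fun _ => RQ.bound hδ hP hsm hp hpr hmod hT hσ hlog
  have hσ0 := hσ.pos hδ
  have hp15 : (15 : ℝ) ≤ p := by exact_mod_cast (show 15 ≤ p by omega)
  have h3 := Rch.step σ (p + 1) hσ (by push_cast; linarith)
  have h4 := Rch.step _ (p + 5) h3 (by
    push_cast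
    rw [div_le_iff₀ hσ0]
    nlinarith)
  refine ⟨_, h4, ?_⟩
  have h5 : bet (p + 8) = bet p + (Real.log (p + 3) - Real.log (p + 1)) +
      (Real.log (p + 7) - Real.log (p + 5)) := by
    have h6 : bet (p + 8) = bet (p + 4) + (Real.log (((p + 4 : ℕ) : ℝ) + 3) -
        Real.log (((p + 4 : ℕ) : ℝ) + 1)) := bet_add (p + 4)
    rw [bet_add p] at h6
    push_cast at h6
    have e1 : (p : ℝ) + 4 + 3 = p + 7 := by ring
    have e2 : (p : ℝ) + 4 + 1 = p + 5 := by ring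
    rw [e1, e2] at h6
    exact h6
  have e3 : (p : ℝ) + 3 + 2 = p + 5 := by ring
  have e4 : (p : ℝ) + 3 + 4 = p + 7 := by ring
  push_cast
  rw [Real.log_div (by positivity) (by positivity), Real.log_div (by positivity) (by positivity),
    Real.log_pow, Real.log_pow, hlog, h5, Gk_zero, e3, e4]
  push_cast
  ring

theorem RQ.stepB (hδ : 0 < δ) (hP : 15 ≤ P) (hsm : Small r P) {p : ℕ} (hp : P ≤ p)
    (hpr : p ≤ r) (hmod : p % 4 = r % 4) {T : ℝ} (hT : |T| ≤ 1 / (32 * (r : ℝ)))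
    (h : RQ δ r p T) : RQ δ r (p + 8) (T + Gk 0 ((p : ℝ) + 1)) := by
  obtain ⟨σ, hσ, hlog⟩ := h
  obtain ⟨h1, h2⟩ := hσ.pos hδ |> fun _ => RQ.bound hδ hP hsm hp hpr hmod hT hσ hlog
  have hσ0 := hσ.pos hδ
  have hp15 : (15 : ℝ) ≤ p := by exact_mod_cast (show 15 ≤ p by omega)
  have h3 := Rch.step σ (p + 3) hσ (by push_cast; linarith)
  have h4 := Rch.step _ (p + 7) h3 (by
    push_cast
    rw [div_le_iff₀ hσ0]
    nlinarith)
  refine ⟨_, h4, ?_⟩
  have h5 : bet (p + 8) = bet p + (Real.log (p + 3) - Real.log (p + 1)) +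
      (Real.log (p + 7) - Real.log (p + 5)) := by
    have h6 : bet (p + 8) = bet (p + 4) + (Real.log (((p + 4 : ℕ) : ℝ) + 3) -
        Real.log (((p + 4 : ℕ) : ℝ) + 1)) := bet_add (p + 4)
    rw [bet_add p] at h6
    push_cast at h6
    have e1 : (p : ℝ) + 4 + 3 = p + 7 := by ring
    have e2 : (p : ℝ) + 4 + 1 = p + 5 := by ring
    rw [e1, e2] at h6
    exact h6
  have e3 : (p : ℝ) + 1 + 2 = p + 3 := by ring
  have e4 : (p : ℝ) + 1 + 4 = p + 5 := by ring
  push_cast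
  rw [Real.log_div (by positivity) (by positivity), Real.log_div (by positivity) (by positivity),
    Real.log_pow, Real.log_pow, hlog, h5, Gk_zero, e3, e4]
  push_cast
  ring

theorem RQ.steps (hδ : 0 < δ) (hP : 15 ≤ P) (hsm : Small r P) {p : ℕ} (hp : P ≤ p)
    (hmod : p % 4 = r % 4) {T : ℝ} (hT : |T| ≤ 1 / (32 * (r : ℝ)))
    (h : RQ δ r p T) (n : ℕ) (hn : p + 4 * n ≤ r) : RQ δ r (p + 4 * n) T := by
  induction n with
  | zero => exact h
  | succ n ih =>
    have h1 := ih (by omega)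
    exact RQ.stepU hδ hP hsm (p := p + 4 * n) (by omega) (by omega) (by omega) hT h1

theorem RQ.to (hδ : 0 < δ) (hP : 15 ≤ P) (hsm : Small r P) {p q : ℕ} (hp : P ≤ p)
    (hmod : p % 4 = r % 4) (hmod' : q % 4 = r % 4) {T : ℝ} (hT : |T| ≤ 1 / (32 * (r : ℝ)))
    (h : RQ δ r p T) (hpq : p ≤ q) (hq : q ≤ r) : RQ δ r q T := by
  obtain ⟨n, rfl⟩ : ∃ n, q = p + 4 * n := ⟨(q - p) / 4, by omega⟩
  exact RQ.steps hδ hP hsm hp hmod hT h n hq

/-- Gadgets of both signs. -/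
theorem RQ.gad (hδ : 0 < δ) (hP : 15 ≤ P) (hsm : Small r P) (k : ℕ) :
    (∀ p y q : ℕ, ∀ T : ℝ, P ≤ p → p % 4 = r % 4 → q % 4 = r % 4 → p + 3 ≤ y →
      y % 4 = (r + 3) % 4 → y + shS k + 7 ≤ q → q ≤ r →
      |T| + (k + 1) * Gk 0 P ≤ 1 / (32 * (r : ℝ)) → RQ δ r p T → RQ δ r q (T - Gk k y)) ∧
    (∀ p y q : ℕ, ∀ T : ℝ, P ≤ p → p % 4 = r % 4 → q % 4 = r % 4 → p + 1 ≤ y →
      y % 4 = (r + 1) % 4 → y + shS k + 7 ≤ q → q ≤ r →
      |T| + (k + 1) * Gk 0 P ≤ 1 / (32 * (r : ℝ)) → RQ δ r p T → RQ δ r q (T + Gk k y)) := by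
  have hPR : (0 : ℝ) < P := by exact_mod_cast (show 0 < P by omega)
  have hG : ∀ (k y : ℕ), P ≤ y → |Gk k (y : ℝ)| ≤ Gk 0 P := by
    intro k y hy
    have hy0 : (0 : ℝ) < y := by exact_mod_cast (show 0 < y by omega)
    rw [abs_of_pos (Gk_pos k hy0)]
    refine (Gk_le_zero k hy0).trans ?_
    rcases Nat.eq_or_lt_of_le hy with h | h
    · rw [h]
    · have h1 : (y : ℝ) = P + (y - P : ℝ) := by ring
      rw [h1]
      refine Gk_anti 0 hPR ?_
      have : (P : ℝ) < y := by exact_mod_cast h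
      linarith
  have hG0 : 0 < Gk 0 P := Gk_pos 0 hPR
  induction k with
  | zero =>
    have h7 : shS 0 = 4 := rfl
    constructor
    · intro p y q T hp hmp hmq hpy hy hyq hq hT h
      rw [h7] at hyq
      have hT1 : |T| ≤ 1 / (32 * (r : ℝ)) := by
        push_cast at hT
        linarith
      have h1 := RQ.to hδ hP hsm hp hmp (q := y - 3) (by omega) hT1 h (by omega) (by omega)
      have h2 := RQ.stepA hδ hP hsm (p := y - 3) (by omega) (by omega) (by omega) hT1 h1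
      have h3 : ((y - 3 : ℕ) : ℝ) + 3 = y := by
        rw [Nat.cast_sub (by omega)]
        push_cast
        ring
      rw [h3] at h2
      have hT2 : |T - Gk 0 y| ≤ 1 / (32 * (r : ℝ)) := by
        refine (abs_sub _ _).trans ?_
        have := hG 0 y (by omega)
        push_cast at hT
        linarith
      exact RQ.to hδ hP hsm (p := y - 3 + 8) (by omega) (by omega) hmq hT2 h2 (by omega) hq
    · intro p y q T hp hmp hmq hpy hy hyq hq hT h
      rw [h7] at hyq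
      have hT1 : |T| ≤ 1 / (32 * (r : ℝ)) := by
        push_cast at hT
        linarith
      have h1 := RQ.to hδ hP hsm hp hmp (q := y - 1) (by omega) hT1 h (by omega) (by omega)
      have h2 := RQ.stepB hδ hP hsm (p := y - 1) (by omega) (by omega) (by omega) hT1 h1
      have h3 : ((y - 1 : ℕ) : ℝ) + 1 = y := by
        rw [Nat.cast_sub (by omega)]
        push_cast
        ring
      rw [h3] at h2
      have hT2 : |T + Gk 0 y| ≤ 1 / (32 * (r : ℝ)) := by
        refine (abs_add_le _ _).trans ?_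
        have := hG 0 y (by omega)
        push_cast at hT
        linarith
      exact RQ.to hδ hP hsm (p := y - 1 + 8) (by omega) (by omega) hmq hT2 h2 (by omega) hq
  | succ k ih =>
    have hs1 := shS_le k
    have hs2 := shi_mod k
    obtain ⟨s, hs⟩ : ∃ s, s = shi k := ⟨_, rfl⟩
    have hS1 : shS (k + 1) = shS k + shi k := rfl
    rw [← hs] at hs1 hs2 hS1
    constructor
    · intro p y q T hp hmp hmq hpy hy hyq hq hT h
      rw [hS1] at hyq
      push_cast at hT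
      have hT1 : |T| + (k + 1) * Gk 0 P ≤ 1 / (32 * (r : ℝ)) := by
        linarith
      have h1 := ih.1 p y (y + s - 1) T hp hmp (by omega) hpy hy (by omega) (by omega) hT1 h
      have hT2 : |T - Gk k y| + (k + 1) * Gk 0 P ≤ 1 / (32 * (r : ℝ)) := by
        have h2 := (abs_sub T (Gk k y))
        have := hG k y (by omega)
        linarith
      have h2 := ih.2 (y + s - 1) (y + s) q (T - Gk k y) (by omega) (by omega) hmq (by omega)
        (by omega) (by omega) hq hT2 h1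
      rw [Gk_succ, ← hs]
      have h3 : T - (Gk k y - Gk k ((y : ℝ) + (s : ℝ))) = T - Gk k y + Gk k ((y + s : ℕ) : ℝ) := by
        push_cast
        ring
      rw [h3]
      exact h2
    · intro p y q T hp hmp hmq hpy hy hyq hq hT h
      rw [hS1] at hyq
      push_cast at hT
      have hT1 : |T| + (k + 1) * Gk 0 P ≤ 1 / (32 * (r : ℝ)) := by
        linarith
      have h1 := ih.2 p y (y + s - 3) T hp hmp (by omega) hpy hy (by omega) (by omega) hT1 h
      have hT2 : |T + Gk k y| + (k + 1) * Gk 0 P ≤ 1 / (32 * (r : ℝ)) := by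
        have h2 := (abs_add_le T (Gk k y))
        have := hG k y (by omega)
        linarith
      have h2 := ih.1 (y + s - 3) (y + s) q (T + Gk k y) (by omega) (by omega) hmq (by omega)
        (by omega) (by omega) hq hT2 h1
      rw [Gk_succ, ← hs]
      have h3 : T + (Gk k y - Gk k ((y : ℝ) + (s : ℝ))) = T + Gk k y - Gk k ((y + s : ℕ) : ℝ) := by
        push_cast
        ring
      rw [h3]
      exact h2

end

theorem main_indQ {δ r P K : ℕ} (hδ : 0 < δ) (hP : 15 ≤ P) (hsm : Small r P)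
    (hmod : P % 4 = r % 4) (hth : ∀ k ≤ K, 10 * ((k + 2) * (3 + shS k)) ≤ P)
    (hr : 5 ^ (K + 1) * P ≤ r) (hbud : 4 * ((K : ℝ) + 2) / (P : ℝ) ^ 2 ≤ 1 / (32 * (r : ℝ)))
    {T : ℝ} (hT : RQ δ r P T) (hT1 : wl 0 P ≤ T) (hT2 : T ≤ wu 0 P) :
    ∃ σ T', Rch δ σ ∧ Real.log σ = Real.log r - 2 * T' ∧ 0 < T' ∧
      T' ≤ wu (K + 1) (5 ^ (K + 1) * (P : ℝ)) := by
  have hPR : (0 : ℝ) < P := by exact_mod_cast (show 0 < P by omega)
  have hmodk : ∀ k : ℕ, (5 ^ k * P) % 4 = r % 4 := by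
    intro k
    have h : 5 ^ k % 4 = 1 := by
      rw [Nat.pow_mod]
      norm_num
    rw [Nat.mul_mod, h, one_mul, Nat.mod_mod, hmod]
  have hG0 : Gk 0 P ≤ 4 / (P : ℝ) ^ 2 := by
    have := (Gk_bounds 0 hPR).2
    rwa [ck_zero] at this
  have hwu0 : wu 0 P ≤ 4 / (P : ℝ) ^ 2 := by
    unfold wu
    have h2 : (P : ℝ) ^ (0 + 2) = (P : ℝ) ^ 2 := rfl
    rw [ck_zero, h2, div_le_div_iff₀ (by positivity) (by positivity)]
    nlinarith [pow_pos hPR 2]
  have hwl0 : ∀ k (x : ℝ), 0 < x → 0 < wl k x := by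
    intro k x hx
    unfold wl
    have := ck_pos k
    positivity
  have key : ∀ k ≤ K + 1, ∃ T', RQ δ r (5 ^ k * P) T' ∧ wl k (5 ^ k * (P : ℝ)) ≤ T' ∧
      T' ≤ wu k (5 ^ k * (P : ℝ)) ∧ T' ≤ 4 / (P : ℝ) ^ 2 := by
    intro k
    induction k with
    | zero =>
      intro _
      refine ⟨T, by simpa using hT, by simpa using hT1, by simpa using hT2, hT2.trans hwu0⟩
    | succ k ih =>
      intro hk
      obtain ⟨T', h1, h2, h3, h4⟩ := ih (by omega)
      have h5 := hth k (by omega)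
      have h6 : P ≤ 5 ^ k * P := Nat.le_mul_of_pos_left P (by positivity)
      have hSk : shS k + 10 ≤ P := by
        have : 1 * (3 + shS k) ≤ (k + 2) * (3 + shS k) := Nat.mul_le_mul_right _ (by omega)
        omega
      have h7 : ((5 ^ k * P : ℕ) : ℝ) = 5 ^ k * (P : ℝ) := by push_cast; ring
      obtain ⟨i, hi1, hi2, hi3⟩ := stage k (5 ^ k * P) (h5.trans h6) (T := T')
        (by rw [h7]; exact h2) (by rw [h7]; exact h3)
      have h8 : 5 ^ (k + 1) * P = 5 * (5 ^ k * P) := by ring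
      have h8' : (5 : ℝ) ^ (k + 1) * P = 5 * (5 ^ k * P) := by ring
      have h9 : 5 ^ (k + 1) * P ≤ r :=
        (Nat.mul_le_mul_right P (Nat.pow_le_pow_right (by norm_num) hk)).trans hr
      have hT0 : 0 < T' := lt_of_lt_of_le (hwl0 k _ (by positivity)) h2
      have hkK : (k : ℝ) ≤ K := by exact_mod_cast (show k ≤ K by omega)
      have h10 := (RQ.gad hδ hP hsm k).1 (5 ^ k * P) (5 ^ k * P + 3 + 4 * i) (5 ^ (k + 1) * P) T'
        h6 (hmodk k) (hmodk (k + 1)) (by omega) (by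
          have := hmodk k
          omega) (by omega) h9 (by
          rw [abs_of_pos hT0]
          refine le_trans ?_ hbud
          have h11 : (k + 1) * Gk 0 P ≤ (K + 1) * (4 / (P : ℝ) ^ 2) :=
            mul_le_mul (by linarith) hG0 (Gk_pos 0 hPR).le (by positivity)
          have h12 : 4 * ((K : ℝ) + 2) / (P : ℝ) ^ 2 =
              4 / (P : ℝ) ^ 2 + (K + 1) * (4 / (P : ℝ) ^ 2) := by ring
          rw [h12]
          linarith) h1
      have hy : (0 : ℝ) < ((5 ^ k * P + 3 + 4 * i : ℕ) : ℝ) := by positivity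
      have h13 := Gk_pos k hy
      refine ⟨_, h10, ?_, ?_, by linarith⟩
      · rw [h8', ← h7]
        exact hi2
      · rw [h8', ← h7]
        exact hi3
  obtain ⟨T', h1, h2, h3, h4⟩ := key (K + 1) le_rfl
  have hT0 : 0 < T' := lt_of_lt_of_le (hwl0 (K + 1) _ (by positivity)) h2
  have h5 : P ≤ 5 ^ (K + 1) * P := Nat.le_mul_of_pos_left P (by positivity)
  obtain ⟨σ, hσ, hlog⟩ := RQ.to hδ hP hsm h5 (hmodk (K + 1)) rfl (T := T') (by
    rw [abs_of_pos hT0]
    refine h4.trans (le_trans ?_ hbud)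
    have h6 : 4 * ((K : ℝ) + 2) / (P : ℝ) ^ 2 =
        4 / (P : ℝ) ^ 2 + (K + 1) * (4 / (P : ℝ) ^ 2) := by ring
    rw [h6]
    have : 0 ≤ ((K : ℝ) + 1) * (4 / (P : ℝ) ^ 2) := by positivity
    linarith) h1 hr le_rfl
  refine ⟨σ, T', hσ, ?_, hT0, h3⟩
  rw [hlog]
  unfold gam
  ring

end Pool.Agent.H643Z.Ses
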