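import Mathlib
import Pool.Agent.H643Z.Ses.Num1

set_option autoImplicit false

/-!
# Slopes reachable from an arbitrary integer slope come very close to every large integer
-/

namespace Pool.Agent.H643Z.Ses

open Pool.Agent.H932R3

theorem start_of_near {e r P : ℕ} (hP : 1000 ≤ P) (hmod : P % 4 = r % 4) (hr : P ≤ r) {σ : ℝ}
    (hσ : Rch e σ) (h1 : (P : ℝ) - 13 / (2 * P) ≤ σ) (h2 : σ ≤ (P : ℝ) - 4 / P) :
    ∃ T, RQ e r P T ∧ wl 0 (P : ℝ) ≤ T ∧ T ≤ wu 0 (P : ℝ) := by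
  have hPR : (1000 : ℝ) ≤ P := by exact_mod_cast hP
  have hP0 : (0 : ℝ) < P := by linarith
  have h13 : 13 / (2 * (P : ℝ)) ≤ 1 := by
    rw [div_le_one (by positivity)]
    linarith
  have hσ0 : 0 < σ := by linarith
  obtain ⟨hg1, hg2⟩ := gam_le (p := P) (by omega) ((r - P) / 4)
  have hrr : P + 4 * ((r - P) / 4) = r := by omega
  rw [hrr] at hg1 hg2
  have hg3 : gam P - gam r ≤ 1 / (4 * ((P : ℝ) - 2) ^ 2) := by
    refine hg2.trans ?_
    have : 0 ≤ 1 / (4 * ((P : ℝ) + 4 * (((r - P) / 4 : ℕ) : ℝ) - 2) ^ 2) := by positivity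
    linarith
  have hg4 : 1 / (4 * ((P : ℝ) - 2) ^ 2) ≤ 26 / (100 * (P : ℝ) ^ 2) := by
    rw [div_le_div_iff₀ (by nlinarith) (by positivity)]
    nlinarith
  have hl1 : 4 / (P : ℝ) ^ 2 ≤ Real.log P - Real.log σ := by
    have h3 := Real.log_le_sub_one_of_pos (show 0 < σ / P by positivity)
    rw [Real.log_div hσ0.ne' hP0.ne'] at h3
    have h4 : σ / P ≤ 1 - 4 / (P : ℝ) ^ 2 := by
      rw [div_le_iff₀ hP0]
      have : (1 - 4 / (P : ℝ) ^ 2) * P = P - 4 / P := by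
        field_simp
      rw [this]
      exact h2
    linarith
  have hl2 : Real.log P - Real.log σ ≤ 66 / (10 * (P : ℝ) ^ 2) := by
    have h3 := Real.log_le_sub_one_of_pos (show 0 < P / σ by positivity)
    rw [Real.log_div hP0.ne' hσ0.ne'] at h3
    have h4 : P / σ ≤ 1 + 66 / (10 * (P : ℝ) ^ 2) := by
      rw [div_le_iff₀ hσ0]
      have h5 : (1 + 66 / (10 * (P : ℝ) ^ 2)) * ((P : ℝ) - 13 / (2 * P)) ≤
          (1 + 66 / (10 * (P : ℝ) ^ 2)) * σ :=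
        mul_le_mul_of_nonneg_left h1 (by positivity)
      refine le_trans ?_ h5
      have h6 : (1 + 66 / (10 * (P : ℝ) ^ 2)) * ((P : ℝ) - 13 / (2 * P)) =
          P + (2 * (P : ℝ) ^ 2 - 858) / (20 * (P : ℝ) ^ 3) := by
        field_simp
        ring
      rw [h6]
      have : 0 ≤ (2 * (P : ℝ) ^ 2 - 858) / (20 * (P : ℝ) ^ 3) :=
        div_nonneg (by nlinarith) (by positivity)
      linarith
    linarith
  refine ⟨gam P - gam r + (Real.log P - Real.log σ) / 2, ⟨σ, hσ, ?_⟩, ?_, ?_⟩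
  · unfold gam
    ring
  · unfold wl
    rw [ck_zero]
    have h9 : (4 : ℝ) / (2 * (P : ℝ) ^ (0 + 2)) = (4 / (P : ℝ) ^ 2) / 2 := by
      field_simp
    rw [h9]
    linarith
  · unfold wu
    rw [ck_zero]
    have h9 : 9 * (4 : ℝ) / (10 * (P : ℝ) ^ (0 + 2)) =
        26 / (100 * (P : ℝ) ^ 2) + 66 / (10 * (P : ℝ) ^ 2) / 2 + 4 / (100 * (P : ℝ) ^ 2) := by
      field_simp
      ring
    rw [h9]
    have : 0 ≤ 4 / (100 * (P : ℝ) ^ 2) := by positivity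
    linarith

theorem start_even {e Y : ℕ} (hY : 1000 ≤ Y) {s : ℝ} (hs : Rch e s) (h1 : (Y : ℝ) ≤ s)
    (h2 : s ≤ Y + 11 / (10 * (Y : ℝ))) :
    ∃ σ, Rch e σ ∧ ((Y + 12 : ℕ) : ℝ) - 13 / (2 * ((Y + 12 : ℕ) : ℝ)) ≤ σ ∧
      σ ≤ ((Y + 12 : ℕ) : ℝ) - 4 / ((Y + 12 : ℕ) : ℝ) := by
  obtain ⟨X, hX⟩ : ∃ X : ℝ, X = Y := ⟨_, rfl⟩
  have hX1 : 1000 ≤ X := by rw [hX]; exact_mod_cast hY
  have hX0 : 0 < X := by linarith
  rw [← hX] at h1 h2
  have hs0 : 0 < s := by linarith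
  have h11 : 11 / (10 * X) ≤ 1 := by
    rw [div_le_one (by positivity)]
    linarith
  have hs1 : s ≤ X + 1 := by linarith
  have e2 : ((Y + 2 : ℕ) : ℝ) = X + 2 := by rw [hX]; push_cast; ring
  have e5 : ((Y + 5 : ℕ) : ℝ) = X + 5 := by rw [hX]; push_cast; ring
  have e8 : ((Y + 8 : ℕ) : ℝ) = X + 8 := by rw [hX]; push_cast; ring
  have e11 : ((Y + 11 : ℕ) : ℝ) = X + 11 := by rw [hX]; push_cast; ring
  have e12 : ((Y + 12 : ℕ) : ℝ) = X + 12 := by rw [hX]; push_cast; ring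
  have a1 := Rch.step s (Y + 2) hs (by rw [e2]; linarith)
  rw [e2] at a1
  have a2 := Rch.step _ (Y + 5) a1 (by
    rw [e5, div_le_iff₀ hs0]
    nlinarith)
  rw [e5] at a2
  have f2 : (X + 5) ^ 2 / ((X + 2) ^ 2 / s) = s * (X + 5) ^ 2 / (X + 2) ^ 2 := by
    field_simp
  rw [f2] at a2
  have a3 := Rch.step _ (Y + 8) a2 (by
    rw [e8, div_le_iff₀ (by positivity)]
    have : s * (X + 5) ^ 2 ≤ (X + 1) * (X + 5) ^ 2 :=
      mul_le_mul_of_nonneg_right hs1 (by positivity)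
    nlinarith)
  rw [e8] at a3
  have a4 := Rch.step _ (Y + 11) a3 (by
    rw [e11, div_le_iff₀ (by positivity), mul_div_assoc', le_div_iff₀ (by positivity)]
    have h3 : (X + 11) * (X * (X + 5) ^ 2) ≤ (X + 11) * (s * (X + 5) ^ 2) :=
      mul_le_mul_of_nonneg_left (mul_le_mul_of_nonneg_right h1 (by positivity)) (by positivity)
    refine le_trans ?_ h3
    obtain ⟨y, hy, rfl⟩ : ∃ y : ℝ, 0 ≤ y ∧ X = y + 1000 := ⟨X - 1000, by linarith, by ring⟩
    have h7 : 0 ≤ (y + 1000 + 11) * ((y + 1000) * (y + 1000 + 5) ^ 2) -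
        (y + 1000 + 8) ^ 2 * (y + 1000 + 2) ^ 2 := by
      ring_nf
      positivity
    linarith)
  rw [e11] at a4
  have f4 : (X + 11) ^ 2 / ((X + 8) ^ 2 / (s * (X + 5) ^ 2 / (X + 2) ^ 2)) =
      s * (((X + 11) * (X + 5)) ^ 2 / ((X + 8) * (X + 2)) ^ 2) := by
    field_simp
  rw [f4] at a4
  refine ⟨_, a4, ?_, ?_⟩
  · rw [e12]
    refine le_trans ?_ (mul_le_mul_of_nonneg_right h1 (by positivity))
    have h3 : X + 12 - 13 / (2 * (X + 12)) = (2 * (X + 12) ^ 2 - 13) / (2 * (X + 12)) := by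
      field_simp
    rw [h3, mul_div_assoc', div_le_div_iff₀ (by positivity) (by positivity)]
    obtain ⟨y, hy, rfl⟩ : ∃ y : ℝ, 0 ≤ y ∧ X = y + 1000 := ⟨X - 1000, by linarith, by ring⟩
    have h7 : 0 ≤ (y + 1000) * ((y + 1000 + 11) * (y + 1000 + 5)) ^ 2 * (2 * (y + 1000 + 12)) -
        (2 * (y + 1000 + 12) ^ 2 - 13) * ((y + 1000 + 8) * (y + 1000 + 2)) ^ 2 := by
      ring_nf
      positivity
    linarith
  · rw [e12]
    refine le_trans (mul_le_mul_of_nonneg_right h2 (by positivity)) ?_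
    have h3 : X + 12 - 4 / (X + 12) = ((X + 12) ^ 2 - 4) / (X + 12) := by
      field_simp
    have h4 : X + 11 / (10 * X) = (10 * X ^ 2 + 11) / (10 * X) := by
      field_simp
    rw [h3, h4, div_mul_div_comm, div_le_div_iff₀ (by positivity) (by positivity)]
    obtain ⟨y, hy, rfl⟩ : ∃ y : ℝ, 0 ≤ y ∧ X = y + 1000 := ⟨X - 1000, by linarith, by ring⟩
    have h7 : 0 ≤ ((y + 1000 + 12) ^ 2 - 4) *
        (10 * (y + 1000) * ((y + 1000 + 8) * (y + 1000 + 2)) ^ 2) -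
        (10 * (y + 1000) ^ 2 + 11) * ((y + 1000 + 11) * (y + 1000 + 5)) ^ 2 *
          (y + 1000 + 12) := by
      ring_nf
      positivity
    linarith

theorem start_odd {e Y : ℕ} (hY : 2000 ≤ Y) {s : ℝ} (hs : Rch e s) (h1 : (Y : ℝ) ≤ s)
    (h2 : s ≤ Y + 11 / (10 * (Y : ℝ))) :
    ∃ σ, Rch e σ ∧ ((Y + 22 : ℕ) : ℝ) - 13 / (2 * ((Y + 22 : ℕ) : ℝ)) ≤ σ ∧
      σ ≤ ((Y + 22 : ℕ) : ℝ) - 4 / ((Y + 22 : ℕ) : ℝ) := by
  obtain ⟨X, hX⟩ : ∃ X : ℝ, X = Y := ⟨_, rfl⟩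
  have hX1 : 2000 ≤ X := by rw [hX]; exact_mod_cast hY
  have hX0 : 0 < X := by linarith
  rw [← hX] at h1 h2
  have hs0 : 0 < s := by linarith
  have h11 : 11 / (10 * X) ≤ 1 := by
    rw [div_le_one (by positivity)]
    linarith
  have hs1 : s ≤ X + 1 := by linarith
  have e2 : ((Y + 2 : ℕ) : ℝ) = X + 2 := by rw [hX]; push_cast; ring
  have e9 : ((Y + 9 : ℕ) : ℝ) = X + 9 := by rw [hX]; push_cast; ring
  have e18 : ((Y + 18 : ℕ) : ℝ) = X + 18 := by rw [hX]; push_cast; ring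
  have e22 : ((Y + 22 : ℕ) : ℝ) = X + 22 := by rw [hX]; push_cast; ring
  have a1 := Rch.step s (Y + 2) hs (by rw [e2]; linarith)
  rw [e2] at a1
  have a2 := Rch.step _ (Y + 9) a1 (by
    rw [e9, div_le_iff₀ hs0]
    nlinarith)
  rw [e9] at a2
  have f2 : (X + 9) ^ 2 / ((X + 2) ^ 2 / s) = s * (X + 9) ^ 2 / (X + 2) ^ 2 := by
    field_simp
  rw [f2] at a2
  have a3 := Rch.step _ (Y + 18) a2 (by
    rw [e18, div_le_iff₀ (by positivity)]
    have : s * (X + 9) ^ 2 ≤ (X + 1) * (X + 9) ^ 2 :=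
      mul_le_mul_of_nonneg_right hs1 (by positivity)
    nlinarith)
  rw [e18] at a3
  have f3 : (X + 18) ^ 2 / (s * (X + 9) ^ 2 / (X + 2) ^ 2) =
      (((X + 18) * (X + 2)) ^ 2 / (X + 9) ^ 2) / s := by
    field_simp
  rw [f3] at a3
  refine ⟨_, a3, ?_, ?_⟩
  · rw [e22]
    refine le_trans ?_ (div_le_div_of_nonneg_left (by positivity) hs0 h2)
    have h3 : X + 22 - 13 / (2 * (X + 22)) = (2 * (X + 22) ^ 2 - 13) / (2 * (X + 22)) := by
      field_simp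
    have h4 : ((X + 18) * (X + 2)) ^ 2 / (X + 9) ^ 2 / (X + 11 / (10 * X)) =
        (((X + 18) * (X + 2)) ^ 2 * (10 * X)) / ((X + 9) ^ 2 * (10 * X ^ 2 + 11)) := by
      field_simp
    rw [h3, h4, div_le_div_iff₀ (by positivity) (by positivity)]
    obtain ⟨y, hy, rfl⟩ : ∃ y : ℝ, 0 ≤ y ∧ X = y + 2000 := ⟨X - 2000, by linarith, by ring⟩
    have h7 : 0 ≤ ((y + 2000 + 18) * (y + 2000 + 2)) ^ 2 * (10 * (y + 2000)) *
        (2 * (y + 2000 + 22)) - (2 * (y + 2000 + 22) ^ 2 - 13) *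
        ((y + 2000 + 9) ^ 2 * (10 * (y + 2000) ^ 2 + 11)) := by
      ring_nf
      positivity
    linarith
  · rw [e22]
    refine le_trans (div_le_div_of_nonneg_left (by positivity) hX0 h1) ?_
    have h3 : X + 22 - 4 / (X + 22) = ((X + 22) ^ 2 - 4) / (X + 22) := by
      field_simp
    rw [h3, div_div, div_le_div_iff₀ (by positivity) (by positivity)]
    obtain ⟨y, hy, rfl⟩ : ∃ y : ℝ, 0 ≤ y ∧ X = y + 2000 := ⟨X - 2000, by linarith, by ring⟩
    have h7 : 0 ≤ ((y + 2000 + 22) ^ 2 - 4) * ((y + 2000 + 9) ^ 2 * (y + 2000)) -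
        ((y + 2000 + 18) * (y + 2000 + 2)) ^ 2 * (y + 2000 + 22) := by
      ring_nf
      positivity
    linarith

/-- Solutions of a Pell equation of every order of magnitude. -/
theorem pell_dense {D : ℕ} (hD : 0 < D) (hsq : ¬ IsSquare D) :
    ∃ c L0 : ℕ, 0 < c ∧ ∀ L, L0 ≤ L → ∃ a j : ℕ, a ^ 2 = D * j ^ 2 + 1 ∧ 0 < j ∧ j ≤ L ∧
      L ≤ c * j := by
  obtain ⟨x, y, hxy, hy⟩ := Pell.exists_of_not_isSquare (d := (D : ℤ)) (by exact_mod_cast hD)
    (by rwa [Int.isSquare_natCast_iff])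
  obtain ⟨a1, j1, h1, hj1⟩ : ∃ a1 j1 : ℕ, a1 ^ 2 = D * j1 ^ 2 + 1 ∧ 0 < j1 := by
    refine ⟨x.natAbs, y.natAbs, ?_, Int.natAbs_pos.2 hy⟩
    zify
    rw [sq_abs, sq_abs]
    linarith
  have ha1 : 0 < a1 := by
    rcases Nat.eq_zero_or_pos a1 with rfl | h
    · simp at h1
    · exact h
  refine ⟨j1 * (D + 1) + a1, j1, by positivity, fun L hL => ?_⟩
  induction L, hL using Nat.le_induction with
  | base => exact ⟨a1, j1, h1, hj1, le_rfl, Nat.le_mul_of_pos_left _ (by positivity)⟩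
  | succ L _ ih =>
    obtain ⟨a, j, h2, hj, h3, h4⟩ := ih
    by_cases h5 : L + 1 ≤ (j1 * (D + 1) + a1) * j
    · exact ⟨a, j, h2, hj, by omega, h5⟩
    · have ha : 0 < a := by
        rcases Nat.eq_zero_or_pos a with rfl | h
        · simp at h2
        · exact h
      have ha2 : a ≤ (D + 1) * j := by
        refine Nat.le_of_not_lt fun h6 => ?_
        have h7 : ((D + 1) * j) ^ 2 < a ^ 2 := Nat.pow_lt_pow_left h6 (by norm_num)
        have h8 : 1 ≤ j ^ 2 := Nat.one_le_pow _ _ hj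
        nlinarith
      refine ⟨a1 * a + D * j1 * j, j1 * a + a1 * j, ?_, by positivity, ?_, ?_⟩
      · zify at h1 h2 ⊢
        linear_combination (a : ℤ) ^ 2 * h1 + h2 - (D : ℤ) * (j : ℤ) ^ 2 * h1
      · have h6 : j1 * a ≤ j1 * ((D + 1) * j) := Nat.mul_le_mul_left _ ha2
        have h7 : (j1 * (D + 1) + a1) * j = j1 * ((D + 1) * j) + a1 * j := by ring
        omega
      · have h6 : j + 1 ≤ j1 * a + a1 * j := by
          have h7 : 1 ≤ j1 * a := Nat.mul_pos hj1 ha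
          have h8 : j ≤ a1 * j := Nat.le_mul_of_pos_left _ ha1
          omega
        have h7 := Nat.mul_le_mul_left (j1 * (D + 1) + a1) h6
        have h8 : (j1 * (D + 1) + a1) * (j + 1) = (j1 * (D + 1) + a1) * j + (j1 * (D + 1) + a1) := by
          ring
        omega

theorem isSquare_of_mul_sq' {n a b : ℕ} (ha : 0 < a) (h : n * a ^ 2 = b ^ 2) :
    ∃ c, n = c * c ∧ b = c * a := by
  have h1 : a ^ 2 ∣ b ^ 2 := ⟨n, by rw [← h, mul_comm]⟩
  rw [Nat.pow_dvd_pow_iff (by norm_num)] at h1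
  obtain ⟨c, rfl⟩ := h1
  refine ⟨c, ?_, by ring⟩
  have h2 : n * a ^ 2 = (c * c) * a ^ 2 := by rw [h]; ring
  exact Nat.eq_of_mul_eq_mul_right (by positivity) h2

theorem exists_odd_nonsquare {e : ℕ} (he : 0 < e) :
    ∃ o : ℕ, (o = 1 ∨ o = 3) ∧ ¬ IsSquare (e * o) := by
  by_cases h : IsSquare e
  · refine ⟨3, Or.inr rfl, fun h3 => ?_⟩
    obtain ⟨a, ha⟩ := h
    obtain ⟨b, hb⟩ := h3
    have ha0 : 0 < a := by
      rcases Nat.eq_zero_or_pos a with rfl | h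
      · omega
      · exact h
    obtain ⟨c, hc, _⟩ := isSquare_of_mul_sq' (n := 3) (a := a) (b := b) ha0 (by
      rw [pow_two, pow_two, ← ha, ← hb, mul_comm])
    have : c ≤ 1 ∨ 2 ≤ c := by omega
    rcases this with h1 | h1
    · have := Nat.mul_le_mul h1 h1
      omega
    · have := Nat.mul_le_mul h1 h1
      omega
  · exact ⟨1, Or.inl rfl, by rwa [mul_one]⟩

theorem choose_start {e : ℕ} (he : 0 < e) :
    ∃ C L0 : ℕ, 0 < C ∧ ∀ A r : ℕ, 0 < A → L0 * A ≤ r → ∃ (P : ℕ) (σ : ℝ), P % 4 = r % 4 ∧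
      A * P ≤ r ∧ r ≤ C * (A * P) ∧ Rch e σ ∧ (P : ℝ) - 13 / (2 * P) ≤ σ ∧
      σ ≤ (P : ℝ) - 4 / P := by
  obtain ⟨o, ho, hsq⟩ := exists_odd_nonsquare he
  have ho0 : 0 < o := by omega
  obtain ⟨c, L0, hc, hL⟩ := pell_dense (Nat.mul_pos he ho0) hsq
  refine ⟨8 * c ^ 2, 2 * (e * (L0 + 100 * c + 1) ^ 2), by positivity, fun A r hA hr => ?_⟩
  obtain ⟨L1, hL1⟩ : ∃ L1, L1 = r / (2 * A) := ⟨_, rfl⟩
  have hA2 : 0 < 2 * A := by omega
  have h1 : e * (L0 + 100 * c + 1) ^ 2 ≤ L1 := by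
    rw [hL1, Nat.le_div_iff_mul_le hA2]
    calc e * (L0 + 100 * c + 1) ^ 2 * (2 * A) = 2 * (e * (L0 + 100 * c + 1) ^ 2) * A := by ring
      _ ≤ r := hr
  have h2 : 2 * A * L1 ≤ r := by rw [hL1]; exact Nat.mul_div_le r (2 * A)
  have h3 : r < 2 * A * (L1 + 1) := by
    rw [hL1]
    exact Nat.lt_mul_div_succ r hA2
  obtain ⟨L2, hL2⟩ : ∃ L2, L2 = L1 / e := ⟨_, rfl⟩
  have h4 : (L0 + 100 * c + 1) ^ 2 ≤ L2 := by
    rw [hL2, Nat.le_div_iff_mul_le he, mul_comm]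
    exact h1
  have h5 : e * L2 ≤ L1 := by rw [hL2]; exact Nat.mul_div_le L1 e
  have h6 : L1 < e * (L2 + 1) := by
    rw [hL2]
    exact Nat.lt_mul_div_succ L1 he
  obtain ⟨L, hLd⟩ : ∃ L, L = L2.sqrt := ⟨_, rfl⟩
  have h7 : L0 + 100 * c + 1 ≤ L := by
    rw [hLd, Nat.le_sqrt']
    exact h4
  have h8 : L ^ 2 ≤ L2 := by rw [hLd]; exact Nat.sqrt_le' L2
  have h9 : L2 < (L + 1) ^ 2 := by rw [hLd]; exact Nat.lt_succ_sqrt' L2
  obtain ⟨a, j, haj, hj, hjL, hLj⟩ := hL L (by omega)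
  have hj100 : 100 ≤ j := by
    by_contra h
    have : c * j ≤ c * 100 := Nat.mul_le_mul_left _ (by omega)
    omega
  obtain ⟨X, hX⟩ : ∃ X, X = e * j ^ 2 := ⟨_, rfl⟩
  have hX1 : 10000 ≤ X := by
    have h10 : 100 ^ 2 ≤ j ^ 2 := Nat.pow_le_pow_left hj100 2
    have h11 : j ^ 2 ≤ e * j ^ 2 := Nat.le_mul_of_pos_left _ he
    omega
  have hX2 : X ≤ L1 := by
    rw [hX]
    exact (Nat.mul_le_mul_left e ((Nat.pow_le_pow_left hjL 2).trans h8)).trans h5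
  have hX3 : L1 + 1 ≤ 4 * c ^ 2 * X := by
    have h10 : L + 1 ≤ 2 * (c * j) := by omega
    have h11 : (L + 1) ^ 2 ≤ (2 * (c * j)) ^ 2 := Nat.pow_le_pow_left h10 2
    have h12 : e * (L2 + 1) ≤ e * (2 * (c * j)) ^ 2 := Nat.mul_le_mul_left e (by omega)
    have h13 : e * (2 * (c * j)) ^ 2 = 4 * c ^ 2 * X := by rw [hX]; ring
    omega
  have ha2 : a ^ 2 = o * X + 1 := by rw [haj, hX]; ring
  have ha3 : 20 * a + 30 ≤ X := by
    by_contra h
    have h10 : X ≤ 20 * a + 29 := by omega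
    have h11 : o * X ≤ 3 * X := Nat.mul_le_mul_right _ (by omega)
    have h12 : 498 ≤ a := by omega
    have h13 : 498 * a ≤ a * a := Nat.mul_le_mul_right _ h12
    rw [pow_two] at ha2
    omega
  have heR : (0 : ℝ) < e := by exact_mod_cast he
  have hXR : (10000 : ℝ) ≤ X := by exact_mod_cast hX1
  have r1 : Rch e (X : ℝ) := by
    have h10 := Rch.step (e := e) _ (e * j) Rch.base (by
      exact_mod_cast Nat.le_mul_of_pos_right e hj)
    have h11 : (((e * j : ℕ) : ℝ)) ^ 2 / e = X := by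
      rw [hX]
      push_cast
      field_simp
    rwa [h11] at h10
  have r2 : Rch e (((X + 2 * a + o : ℕ) : ℝ) + 1 / X) := by
    have h10 := Rch.step _ (X + a) r1 (by push_cast; linarith [Nat.cast_nonneg (α := ℝ) a])
    have h11 : (((X + a : ℕ) : ℝ)) ^ 2 / X = ((X + 2 * a + o : ℕ) : ℝ) + 1 / X := by
      have h12 : (a : ℝ) ^ 2 = o * X + 1 := by exact_mod_cast ha2
      push_cast
      field_simp
      linear_combination h12
    rwa [h11] at h10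
  have key : ∀ (Y : ℕ) (s : ℝ), X ≤ Y → 10 * Y ≤ 11 * X → Y % 2 = r % 2 → Rch e s → (Y : ℝ) ≤ s →
      s ≤ Y + 11 / (10 * (Y : ℝ)) → ∃ (P : ℕ) (σ : ℝ), P % 4 = r % 4 ∧
      A * P ≤ r ∧ r ≤ 8 * c ^ 2 * (A * P) ∧ Rch e σ ∧ (P : ℝ) - 13 / (2 * P) ≤ σ ∧
      σ ≤ (P : ℝ) - 4 / P := by
    intro Y s hY1 hY2 hY3 hs hs1 hs2
    have fin : ∀ P, Y ≤ P → P ≤ Y + 22 → A * P ≤ r ∧ r ≤ 8 * c ^ 2 * (A * P) := by
      intro P hP1 hP2
      constructor
      · have h10 : A * P ≤ A * (2 * L1) := Nat.mul_le_mul_left A (by omega)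
        have h11 : A * (2 * L1) = 2 * A * L1 := by ring
        omega
      · have h10 : 2 * A * (L1 + 1) ≤ 2 * A * (4 * c ^ 2 * P) :=
          Nat.mul_le_mul_left _ (hX3.trans (Nat.mul_le_mul_left _ (by omega)))
        have h11 : 2 * A * (4 * c ^ 2 * P) = 8 * c ^ 2 * (A * P) := by ring
        omega
    by_cases hm : Y % 4 = r % 4
    · obtain ⟨σ, h10, h11, h12⟩ := start_even (e := e) (Y := Y) (by omega) hs hs1 hs2
      obtain ⟨h13, h14⟩ := fin (Y + 12) (by omega) (by omega)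
      exact ⟨Y + 12, σ, by omega, h13, h14, h10, h11, h12⟩
    · obtain ⟨σ, h10, h11, h12⟩ := start_odd (e := e) (Y := Y) (by omega) hs hs1 hs2
      obtain ⟨h13, h14⟩ := fin (Y + 22) (by omega) (by omega)
      exact ⟨Y + 22, σ, by omega, h13, h14, h10, h11, h12⟩
  by_cases hpar : X % 2 = r % 2
  · refine key X X le_rfl (by omega) hpar r1 le_rfl ?_
    have : (0 : ℝ) ≤ 11 / (10 * (X : ℝ)) := by positivity
    linarith
  · have h10 : 10 * (X + 2 * a + o) ≤ 11 * X := by omega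
    refine key (X + 2 * a + o) _ (by omega) h10 (by omega) r2 ?_ ?_
    · have : (0 : ℝ) ≤ 1 / (X : ℝ) := by positivity
      linarith
    · have h11 : (10 : ℝ) * ((X + 2 * a + o : ℕ) : ℝ) ≤ 11 * X := by exact_mod_cast h10
      have h12 : (0 : ℝ) < ((X + 2 * a + o : ℕ) : ℝ) := by
        have : 0 < X + 2 * a + o := by omega
        exact_mod_cast this
      have h13 : 1 / (X : ℝ) ≤ 11 / (10 * ((X + 2 * a + o : ℕ) : ℝ)) := by
        rw [div_le_div_iff₀ (by linarith) (by positivity)]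
        linarith
      linarith

/-- **Reachable slopes very close to every large integer**, from any integer base slope. -/
theorem exists_closeQ {e : ℕ} (he : 0 < e) (K : ℕ) : ∃ N : ℕ, ∀ r : ℕ, N ≤ r → ∃ σ,
    Rch e σ ∧ 0 < (r : ℝ) - σ ∧ (r : ℝ) - σ ≤ 1 / (r : ℝ) ^ K := by
  obtain ⟨C, L0, hC, H⟩ := choose_start he
  obtain ⟨A, hA⟩ : ∃ A : ℕ, A = 5 ^ (K + 1) := ⟨_, rfl⟩
  have hA0 : 0 < A := by rw [hA]; positivity
  obtain ⟨W, hW⟩ : ∃ W : ℕ, W = (K + 2) * (3 + shS K) := ⟨_, rfl⟩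
  have hW0 : K + 2 ≤ W := by
    rw [hW]
    exact Nat.le_mul_of_pos_right _ (by omega)
  obtain ⟨V, hV⟩ : ∃ V : ℕ, V = 2 * (shQ (K + 1) * (K + 2).factorial) * C ^ (K + 3) := ⟨_, rfl⟩
  obtain ⟨B, hB⟩ : ∃ B : ℕ, B = C * A := ⟨_, rfl⟩
  have hB0 : 0 < B := by rw [hB]; positivity
  refine ⟨10000 * (B * B * W) + V + L0 * A, fun r hr => ?_⟩
  obtain ⟨P, σ0, hP2, hP3, hP4, hσ0, hσ1, hσ2⟩ := H A r hA0 (by omega)
  have hP4' : r ≤ B * P := by rw [hB, mul_assoc]; exact hP4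
  have hPW : 10000 * (B * W) ≤ P := by
    have h1 : B * (10000 * (B * W)) ≤ B * P := by
      have e1 : B * (10000 * (B * W)) = 10000 * (B * B * W) := by ring
      omega
    exact Nat.le_of_mul_le_mul_left h1 hB0
  have hWAW : W ≤ B * W := Nat.le_mul_of_pos_left W hB0
  have hP5000 : 10000 ≤ P := by omega
  have hPP : 128 * (K + 2) * r ≤ P * P := by
    have h1 : 10000 * (B * W) * P ≤ P * P := Nat.mul_le_mul_right P hPW
    have h2 : 10000 * (B * W) * P = 10000 * (W * (B * P)) := by ring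
    have h3 : 128 * (K + 2) * r ≤ 128 * W * (B * P) :=
      Nat.mul_le_mul (Nat.mul_le_mul_left _ hW0) hP4'
    have h4 : 128 * W * (B * P) = 128 * (W * (B * P)) := by ring
    omega
  have hPR : (10000 : ℝ) ≤ P := by exact_mod_cast hP5000
  have hAP : P ≤ A * P := Nat.le_mul_of_pos_left P hA0
  have hrR : (10000 : ℝ) ≤ r := by
    have : 10000 ≤ r := by omega
    exact_mod_cast this
  have hPPR : 128 * ((K : ℝ) + 2) * r ≤ (P : ℝ) * P := by exact_mod_cast hPP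
  have hK0 : (0 : ℝ) ≤ K := Nat.cast_nonneg K
  have hsm : Small r P := by
    intro p hp hpr hmod
    obtain ⟨hg1, hg2⟩ := gam_le (p := p) (by omega) ((r - p) / 4)
    have hrr : p + 4 * ((r - p) / 4) = r := by omega
    rw [hrr] at hg1 hg2
    rw [abs_of_nonneg hg1]
    refine hg2.trans ?_
    have hpP : (P : ℝ) ≤ p := by exact_mod_cast hp
    have h1 : 0 ≤ 1 / (4 * ((p : ℝ) + 4 * (((r - p) / 4 : ℕ) : ℝ) - 2) ^ 2) := by positivity
    have h2 : 1 / (4 * ((p : ℝ) - 2) ^ 2) ≤ 1 / (32 * (r : ℝ)) := by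
      refine div_le_div_of_nonneg_left (by norm_num) (by positivity) ?_
      have h3 : ((P : ℝ) / 2) ^ 2 ≤ ((p : ℝ) - 2) ^ 2 :=
        pow_le_pow_left₀ (by linarith) (by linarith) 2
      have h4 : 256 * (r : ℝ) ≤ 128 * ((K : ℝ) + 2) * r := by nlinarith
      nlinarith
    linarith
  obtain ⟨T, hT1, hT2, hT3⟩ := start_of_near (e := e) (r := r) (P := P) (by omega) hP2
    (by omega) hσ0 hσ1 hσ2
  have hth : ∀ k ≤ K, 10 * ((k + 2) * (3 + shS k)) ≤ P := by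
    intro k hk
    have h1 : (k + 2) * (3 + shS k) ≤ (K + 2) * (3 + shS K) :=
      Nat.mul_le_mul (by omega) (by have := shS_mono hk; omega)
    rw [← hW] at h1
    omega
  obtain ⟨σ, T', hσ, hlog, hT'0, hT'⟩ := main_indQ (K := K) he (by omega) hsm hP2 hth
    (by rw [← hA]; exact hP3) (by
      rw [div_le_div_iff₀ (by positivity) (by positivity)]
      nlinarith) hT1 hT2 hT3
  have hσ0 : 0 < σ := hσ.pos he
  have hr0 : (0 : ℝ) < r := by linarith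
  have hCR : (0 : ℝ) < C := by exact_mod_cast hC
  have hσe : σ = r * Real.exp (-(2 * T')) := by
    rw [← Real.exp_log hσ0, hlog, sub_eq_add_neg, Real.exp_add, Real.exp_log hr0]
  have hexp1 : Real.exp (-(2 * T')) < 1 := by
    rw [Real.exp_lt_one_iff]
    linarith
  have hexp2 : 1 - 2 * T' ≤ Real.exp (-(2 * T')) := by
    have := Real.add_one_le_exp (-(2 * T'))
    linarith
  refine ⟨σ, hσ, ?_, ?_⟩
  · rw [hσe]
    nlinarith
  · have h1 : (r : ℝ) - σ ≤ 2 * r * T' := by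
      rw [hσe]
      nlinarith
    refine h1.trans ?_
    have h2 : (r : ℝ) / C ≤ 5 ^ (K + 1) * (P : ℝ) := by
      have h3 : (r : ℝ) ≤ C * ((A : ℝ) * P) := by exact_mod_cast hP4
      have h4 : (A : ℝ) = 5 ^ (K + 1) := by rw [hA]; push_cast; ring
      rw [h4] at h3
      rw [div_le_iff₀ hCR]
      linarith
    have h5 : wu (K + 1) (5 ^ (K + 1) * (P : ℝ)) ≤ ck (K + 1) / ((r : ℝ) / C) ^ (K + 3) := by
      unfold wu
      have hc := ck_pos (K + 1)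
      have h6 : ((r : ℝ) / C) ^ (K + 3) ≤ (5 ^ (K + 1) * (P : ℝ)) ^ (K + 3) :=
        pow_le_pow_left₀ (by positivity) h2 _
      have h7 : K + 1 + 2 = K + 3 := rfl
      rw [h7, div_le_div_iff₀ (by positivity) (by positivity)]
      have h8 : 0 < (5 ^ (K + 1) * (P : ℝ)) ^ (K + 3) := by positivity
      nlinarith [mul_le_mul_of_nonneg_left h6 hc.le, mul_pos hc h8]
    have h9 : ck (K + 1) / ((r : ℝ) / C) ^ (K + 3) * (2 * r) = (V : ℝ) / (r : ℝ) ^ (K + 2) := by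
      rw [hV]
      unfold ck
      have : K + 1 + 1 = K + 2 := rfl
      rw [this]
      push_cast
      rw [div_pow, pow_succ (r : ℝ) (K + 2)]
      field_simp
    have h10 : (V : ℝ) / (r : ℝ) ^ (K + 2) ≤ 1 / (r : ℝ) ^ K := by
      rw [div_le_div_iff₀ (by positivity) (by positivity), one_mul, pow_add]
      have h11 : (V : ℝ) ≤ r := by
        have : V ≤ r := by omega
        exact_mod_cast this
      have h12 : (V : ℝ) ≤ (r : ℝ) ^ 2 := by nlinarith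
      have h13 : (0 : ℝ) < (r : ℝ) ^ K := by positivity
      nlinarith
    calc 2 * r * T' ≤ 2 * r * (ck (K + 1) / ((r : ℝ) / C) ^ (K + 3)) :=
          mul_le_mul_of_nonneg_left (hT'.trans h5) (by positivity)
      _ = (V : ℝ) / (r : ℝ) ^ (K + 2) := by rw [← h9]; ring
      _ ≤ 1 / (r : ℝ) ^ K := h10

end Pool.Agent.H643Z.Ses
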