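import Mathlib
import Pool.Agent.H643Z.Ses.Num2
import Pool.Agent.H932R3.Empty

set_option autoImplicit false

/-!
# From initial monomials in a triangle to emptiness at general points
-/

namespace Pool.Agent.H643Z.Ses

open Polynomial Pool.Agent.H932R2 Pool.Agent.H932R3

variable {K : Type*} [Field K]

theorem rch_chain [Infinite K] {𝓘 : Set (Ideal K[X][X])} (h𝓘 : Stable 𝓘) {e B : ℕ} (he : 0 < e)
    (hK : ∀ k : ℕ, 0 < k → k ≤ B → (k : K) ≠ 0) {M : Finset (ℕ × ℕ)}
    (hMB : ∀ p ∈ M, p.2 ≤ B) {V : ℝ}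
    (hM : ∀ p ∈ M, (p.1 : ℝ) + (e : ℝ) * (p.2 : ℝ) ≤ V) {σ : ℝ} (hσ : Rch e σ) :
    ∃ M' : Finset (ℕ × ℕ), (∀ p ∈ M', p.2 ≤ B) ∧ M'.card = M.card ∧
      (∀ p ∈ M', (Real.sqrt e / Real.sqrt σ) * (p.1 : ℝ) +
        (Real.sqrt e * Real.sqrt σ) * (p.2 : ℝ) ≤ V) ∧
      (RkS 𝓘 (↑M' : Set (ℕ × ℕ)) M'.card → RkS 𝓘 (↑M : Set (ℕ × ℕ)) M.card) := by
  have he' : (0 : ℝ) < e := by exact_mod_cast he
  obtain ⟨δ, hδd⟩ : ∃ δ, δ = Real.sqrt e := ⟨_, rfl⟩
  have hδ' : 0 < δ := by rw [hδd]; exact Real.sqrt_pos.2 he'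
  induction hσ with
  | base =>
    refine ⟨M, hMB, rfl, fun p hp => ?_, fun h => h⟩
    rw [div_self (Real.sqrt_pos.2 he').ne', one_mul, Real.mul_self_sqrt he'.le]
    exact hM p hp
  | step σ ρ hσ hρ ih =>
    obtain ⟨M', h1, h2, h3, h4⟩ := ih
    rw [← hδd] at h3 ⊢
    have hσ0 : 0 < σ := hσ.pos he
    have hρ0 : (0 : ℝ) < ρ := lt_of_lt_of_le hσ0 hρ
    have hρ1 : 0 < ρ := by exact_mod_cast hρ0
    have hs0 : 0 < Real.sqrt σ := Real.sqrt_pos.2 hσ0
    have hss : Real.sqrt σ * Real.sqrt σ = σ := Real.mul_self_sqrt hσ0.le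
    refine ⟨cY ρ M', ?_, (card_cY ρ M').trans h2, ?_, fun h => h4 ?_⟩
    · rintro ⟨i, q⟩ hp
      exact row_le_of_mem_cY h1 hp
    · have h5 := cY_bound hρ1 (α := δ / Real.sqrt σ) (β := δ * Real.sqrt σ) ?_ h3
      · intro p hp
        have h6 := h5 p hp
        have h7 : Real.sqrt ((ρ : ℝ) ^ 2 / σ) = ρ / Real.sqrt σ := by
          rw [Real.sqrt_div (by positivity), Real.sqrt_sq hρ0.le]
        rw [h7]
        have h8 : (δ : ℝ) / (ρ / Real.sqrt σ) = δ * Real.sqrt σ / ρ := by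
          field_simp
        have h9 : (δ : ℝ) * (ρ / Real.sqrt σ) = ρ * (δ / Real.sqrt σ) := by ring
        rw [h8, h9]
        exact h6
      · rw [mul_div_assoc', le_div_iff₀ hs0, mul_assoc, hss, mul_comm (ρ : ℝ)]
        exact mul_le_mul_of_nonneg_left hρ hδ'.le
    · rw [card_cY] at h
      exact RkS.compressY h𝓘 ρ B hK (domY_cY h1) h

/-- Monomials in a triangle are independent modulo the ideal of suitable fat points. -/
theorem stair_points [CharZero K] {e r m D : ℕ} (he : 0 < e) {σ : ℝ} (hσ : Rch e σ)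
    (hσr : σ ≤ r) (hD : (D : ℝ) < m * Real.sqrt (σ * e)) {M : Finset (ℕ × ℕ)}
    (hM : ∀ p ∈ M, p.1 + e * p.2 ≤ D) :
    ∃ P : Fin r → Fin 2 → K, RkI (ptJ P fun _ => m) (↑M : Set (ℕ × ℕ)) M.card := by
  have hx0 : (fun i : Fin r => Infinite.natEmbedding K i) ∈
      {x : Fin r → K | Function.Injective x} := by
    intro a b hab
    exact Fin.ext ((Infinite.natEmbedding K).injective hab)
  have he' : (0 : ℝ) < e := by exact_mod_cast he
  have hσ0 : 0 < σ := hσ.pos he
  have hs0 : 0 < Real.sqrt σ := Real.sqrt_pos.2 hσ0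
  have hss : Real.sqrt σ * Real.sqrt σ = σ := Real.mul_self_sqrt hσ0.le
  have he0 : 0 < Real.sqrt e := Real.sqrt_pos.2 he'
  obtain ⟨M', _, _, h5, h6⟩ := rch_chain (wFam_stable (affInv_inj (K := K) r) fun _ => m)
    (B := D) he (fun k hk _ => by exact_mod_cast hk.ne') (M := M) (V := D)
    (fun p hp => by
      have h1 := hM p hp
      have h2 : p.2 ≤ e * p.2 := Nat.le_mul_of_pos_left _ he
      omega)
    (fun p hp => by exact_mod_cast hM p hp) hσ
  have h7 : RkS (wFam {x : Fin r → K | Function.Injective x} fun _ => m)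
      (↑M : Set (ℕ × ℕ)) M.card := by
    refine h6 ((base_EE hx0 m).subset ?_)
    rintro ⟨i, l⟩ hp
    have h7 := h5 _ hp
    simp only at h7
    rw [Real.sqrt_mul hσ0.le] at hD
    have h8 : (i : ℝ) + σ * l < σ * m := by
      have h9 : (Real.sqrt e / Real.sqrt σ * (i : ℝ) + Real.sqrt e * Real.sqrt σ * (l : ℝ)) *
          (Real.sqrt σ / Real.sqrt e) = i + σ * l := by
        field_simp
        rw [pow_two, hss]
        ring
      have h10 : (m * (Real.sqrt σ * Real.sqrt e)) * (Real.sqrt σ / Real.sqrt e) = σ * m := by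
        field_simp
        rw [pow_two, hss]
      rw [← h9, ← h10]
      exact mul_lt_mul_of_pos_right (lt_of_le_of_lt h7 hD) (by positivity)
    have hi0 : (0 : ℝ) ≤ i := Nat.cast_nonneg i
    have hlm : l < m := by
      have h12 : σ * l < σ * m := by linarith
      have h13 : (l : ℝ) < m := lt_of_mul_lt_mul_left h12 hσ0.le
      exact_mod_cast h13
    rw [mem_EE]
    refine ⟨hlm, ?_⟩
    have h14 : (i : ℝ) < r * (m - l) := by
      have hlm' : (l : ℝ) + 1 ≤ m := by exact_mod_cast hlm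
      have h16 : (i : ℝ) < σ * (m - l) := by linarith
      have h17 : σ * ((m : ℝ) - l) ≤ r * (m - l) :=
        mul_le_mul_of_nonneg_right hσr (by linarith)
      linarith
    have h15 : ((r * (m - l) : ℕ) : ℝ) = r * (m - l) := by
      rw [Nat.cast_mul, Nat.cast_sub hlm.le]
    rw [← h15] at h14
    exact_mod_cast h14
  obtain ⟨_, ⟨x, hx, γ, rfl⟩, hR⟩ := h7
  refine ⟨fun a b => if b = 0 then x a else γ.eval (x a), hR.anti ?_⟩
  refine le_trans (le_of_eq ?_) (iInf_le_wIdeal hx γ fun _ => m)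
  simp [ptJ, vIdeal]

/-- The coefficient of `x ^ i * y ^ l` for `p = (i, l)`. -/
noncomputable def cf (g : K[X][X]) (p : ℕ × ℕ) : K := (g.coeff p.2).coeff p.1

theorem cf_ext {g h : K[X][X]} (H : ∀ p, cf g p = cf h p) : g = h := by
  ext l i
  exact H (i, l)

theorem cf_sum {ι : Type*} (s : Finset ι) (g : ι → K[X][X]) (p : ℕ × ℕ) :
    cf (∑ a ∈ s, g a) p = ∑ a ∈ s, cf (g a) p := by
  unfold cf
  rw [finsetSum_coeff, finsetSum_coeff]

theorem cf_smul (c : K) (g : K[X][X]) (p : ℕ × ℕ) : cf (c • g) p = c * cf g p := by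
  unfold cf
  rw [coeff_smul, coeff_smul, smul_eq_mul]

theorem cf_add (g h : K[X][X]) (p : ℕ × ℕ) : cf (g + h) p = cf g p + cf h p := by
  unfold cf
  rw [coeff_add, coeff_add]

theorem cf_mon (q p : ℕ × ℕ) : cf (mon K q) p = if q = p then 1 else 0 := by
  unfold cf
  rw [coeff_mon]

theorem exists_supp (g : K[X][X]) : ∃ T : Finset (ℕ × ℕ), ∀ q, q ∈ T ↔ cf g q ≠ 0 := by
  classical
  refine ⟨g.support.biUnion fun l => (g.coeff l).support.image fun i => (i, l), ?_⟩
  rintro ⟨i, l⟩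
  simp only [Finset.mem_biUnion, mem_support_iff, Finset.mem_image, Prod.mk.injEq, cf]
  constructor
  · rintro ⟨l', _, i', h2, rfl, rfl⟩
    exact h2
  · intro h
    refine ⟨l, fun h0 => h (by rw [h0, coeff_zero]), i, h, rfl, rfl⟩

theorem eq_sum_mon {g : K[X][X]} {T : Finset (ℕ × ℕ)} (hT : ∀ q, cf g q ≠ 0 → q ∈ T) :
    g = ∑ q ∈ T, cf g q • mon K q := by
  classical
  refine cf_ext fun p => ?_
  rw [cf_sum]
  simp only [cf_smul, cf_mon, mul_ite, mul_one, mul_zero]
  rw [Finset.sum_ite_eq' T p]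
  split_ifs with h
  · rfl
  · by_contra h1
    exact h (hT p h1)

/-- The substitution `x ↦ s x`, `y ↦ t y`. -/
noncomputable def scl (s t : K) : K[X][X] →ₐ[K] K[X][X] :=
  aevalAeval (C (C s * X)) (C (C t) * X)

theorem scl_mon (s t : K) (q : ℕ × ℕ) : scl s t (mon K q) = (s ^ q.1 * t ^ q.2) • mon K q := by
  unfold scl mon
  rw [map_mul, aevalAeval_C, map_pow, map_pow, aevalAeval_Y, aeval_X]
  simp only [Algebra.smul_def, Polynomial.algebraMap_apply, Algebra.algebraMap_self,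
    RingHom.id_apply, mul_pow, map_mul, map_pow]
  ring

theorem mem_ptJ {n : ℕ} {P : Fin n → Fin 2 → K} {w : Fin n → ℕ} {g : K[X][X]} :
    g ∈ ptJ P w ↔ ∀ a, g ∈ (Ideal.span {X - C (C (P a 1)), C (X - C (P a 0))} :
      Ideal K[X][X]) ^ w a := by
  unfold ptJ vIdeal cIdeal
  rw [Ideal.mem_iInf]
  simp only [rootPoly_const, pow_one]

theorem scl_mem {n : ℕ} {P : Fin n → Fin 2 → K} {w : Fin n → ℕ} (s t : K) {g : K[X][X]}
    (hg : g ∈ ptJ (fun a b => if b = 0 then s * P a 0 else t * P a 1) w) :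
    scl s t g ∈ ptJ P w := by
  rw [mem_ptJ] at hg ⊢
  intro a
  have h1 := Ideal.mem_map_of_mem (scl s t) (hg a)
  rw [Ideal.map_pow, Ideal.map_span, Set.image_pair] at h1
  refine Ideal.pow_right_mono ?_ _ h1
  rw [Ideal.span_le]
  rintro _ (rfl | rfl)
  · have : scl s t (X - C (C (if (1 : Fin 2) = 0 then s * P a 0 else t * P a 1))) =
        C (C t) * (X - C (C (P a 1))) := by
      rw [if_neg (by decide)]
      unfold scl
      rw [map_sub, aevalAeval_Y, aevalAeval_C, aeval_C]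
      simp only [Polynomial.algebraMap_apply, Algebra.algebraMap_self, RingHom.id_apply, map_mul]
      ring
    rw [SetLike.mem_coe, this]
    exact Ideal.mul_mem_left _ _ (Ideal.subset_span (Or.inl rfl))
  · have : scl s t (C (X - C (if (0 : Fin 2) = 0 then s * P a 0 else t * P a 1))) =
        C (C s) * C (X - C (P a 0)) := by
      rw [if_pos rfl]
      unfold scl
      rw [aevalAeval_C, map_sub, aeval_X, aeval_C]
      simp only [Polynomial.algebraMap_apply, Algebra.algebraMap_self, RingHom.id_apply, map_mul,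
        map_sub]
      ring
    rw [SetLike.mem_coe, this]
    exact Ideal.mul_mem_left _ _ (Ideal.subset_span (Or.inr rfl))

theorem span_of_li {V : Type*} [AddCommGroup V] [Module K V] {U : Submodule K V}
    [FiniteDimensional K U] {n : ℕ} (g : Fin n → V) (hg : ∀ i, g i ∈ U)
    (hli : ∀ c : Fin n → K, ∑ i, c i • g i = 0 → ∀ i, c i = 0) (π : V →ₗ[K] (Fin n → K))
    (hπ : ∀ f ∈ U, π f = 0 → f = 0) : ∀ f ∈ U, ∃ c : Fin n → K, ∑ i, c i • g i = f := by
  have hfr : Module.finrank K U ≤ n := by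
    have hπ' : Function.Injective (π.comp U.subtype) := by
      rw [← LinearMap.ker_eq_bot, LinearMap.ker_eq_bot']
      intro f hf
      exact Subtype.ext (hπ f.1 f.2 hf)
    have := LinearMap.finrank_le_finrank_of_injective hπ'
    rwa [Module.finrank_fin_fun] at this
  have hli2 : LinearIndependent K (fun i => (⟨g i, hg i⟩ : U)) := by
    rw [Fintype.linearIndependent_iff]
    intro c hc
    refine hli c ?_
    have h1 := congrArg Subtype.val hc
    rw [Submodule.coe_sum] at h1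
    exact h1
  have hspan : Submodule.span K (Set.range fun i => (⟨g i, hg i⟩ : U)) = ⊤ := by
    refine Submodule.eq_top_of_finrank_eq (le_antisymm (Submodule.finrank_le _) ?_)
    rw [finrank_span_eq_card hli2, Fintype.card_fin]
    exact hfr
  intro f hf
  have h1 : (⟨f, hf⟩ : U) ∈ Submodule.span K (Set.range fun i => (⟨g i, hg i⟩ : U)) := by
    rw [hspan]
    exact Submodule.mem_top
  obtain ⟨c, hc⟩ := (Submodule.mem_span_range_iff_exists_fun K).1 h1
  have h2 := congrArg Subtype.val hc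
  rw [Submodule.coe_sum] at h2
  exact ⟨c, h2⟩

/-- `p` is the unique monomial of `g` of least weight. -/
def IsInit (W : ℕ) (g : K[X][X]) (p : ℕ × ℕ) : Prop :=
  cf g p ≠ 0 ∧ ∀ q, cf g q ≠ 0 → q ≠ p → p.1 + W * p.2 < q.1 + W * q.2

/-- Degeneration of a space of polynomials to its initial monomials. -/
theorem degen [Infinite K] {U : Submodule K K[X][X]} [FiniteDimensional K U] {W : ℕ}
    {S : Finset (ℕ × ℕ)} (hS1 : ∀ g ∈ U, g ≠ 0 → ∃ p ∈ S, cf g p ≠ 0)
    (hS2 : ∀ p ∈ S, ∃ g ∈ U, IsInit W g p) {n : ℕ} {P : Fin n → Fin 2 → K} {w : Fin n → ℕ}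
    (hR : RkI (ptJ P w) (↑S : Set (ℕ × ℕ)) S.card) :
    ∃ P' : Fin n → Fin 2 → K, ∀ g ∈ U, g ∈ ptJ P' w → g = 0 := by
  classical
  choose g hgU hgI using fun i : Fin S.card => hS2 _ (enumM_mem S i)
  choose T hT using fun i => exists_supp (g i)
  let wt : ℕ × ℕ → ℕ := fun q => q.1 + W * q.2
  obtain ⟨B, hB⟩ : ∃ B : ℕ, ∀ i, ∀ q ∈ T i, wt q ≤ B := by
    refine ⟨Finset.univ.sup fun i => (T i).sup wt, fun i q hq => ?_⟩
    exact (Finset.le_sup (f := wt) hq).trans
      (Finset.le_sup (f := fun i => (T i).sup wt) (Finset.mem_univ i))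
  let v : Fin S.card → ℕ → K[X][X] := fun i k =>
    ∑ q ∈ (T i).filter (fun q => wt q = wt (enumM S i) + k), cf (g i) q • mon K q
  have hv0 : ∀ i, v i 0 = cf (g i) (enumM S i) • mon K (enumM S i) := by
    intro i
    show ∑ q ∈ (T i).filter (fun q => wt q = wt (enumM S i) + 0), cf (g i) q • mon K q = _
    rw [Finset.sum_eq_single (enumM S i)]
    · intro q hq hne
      rw [Finset.mem_filter] at hq
      have h1 := (hgI i).2 q ((hT i q).1 hq.1) hne
      have h2 := hq.2
      simp only [wt] at h2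
      omega
    · intro h
      refine absurd (Finset.mem_filter.2 ⟨(hT i _).2 (hgI i).1, ?_⟩) h
      rfl
  have hvs : ∀ i (t : K), scl t (t ^ W) (g i) =
      t ^ wt (enumM S i) • ∑ k ∈ Finset.range (B + 1), t ^ k • v i k := by
    intro i t
    have hmap : ∀ q ∈ T i, wt q - wt (enumM S i) ∈ Finset.range (B + 1) := by
      intro q hq
      rw [Finset.mem_range]
      have := hB i q hq
      omega
    have hge : ∀ q ∈ T i, wt (enumM S i) ≤ wt q := by
      intro q hq
      by_cases hne : q = enumM S i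
      · rw [hne]
      · exact ((hgI i).2 q ((hT i q).1 hq) hne).le
    conv_lhs => rw [eq_sum_mon (g := g i) (T := T i) fun q hq => (hT i q).2 hq]
    rw [map_sum, ← Finset.sum_fiberwise_of_maps_to hmap, Finset.smul_sum]
    refine Finset.sum_congr rfl fun k _ => ?_
    show _ = t ^ wt (enumM S i) • t ^ k •
      ∑ q ∈ (T i).filter (fun q => wt q = wt (enumM S i) + k), cf (g i) q • mon K q
    rw [smul_smul, Finset.smul_sum]
    refine Finset.sum_congr ?_ fun q hq => ?_
    · ext q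
      simp only [Finset.mem_filter]
      refine and_congr_right fun hq => ?_
      have := hge q hq
      omega
    · rw [Finset.mem_filter] at hq
      rw [map_smul, scl_mon, smul_smul, smul_smul, ← pow_mul, ← pow_add, ← pow_add, ← hq.2,
        mul_comm]
  obtain ⟨Wq, hWq⟩ : ∃ Wq : Fin S.card → ℕ → K[X][X] ⧸ ptJ P w,
      ∀ i k, Wq i k = Ideal.Quotient.mkₐ K (ptJ P w) (v i k) := ⟨_, fun _ _ => rfl⟩
  have h0 : LinearIndependent K (fun j => Wq j 0) := by
    simp only [hWq]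
    refine (li_mk_iff _ _).2 fun c hc i => ?_
    simp only [hv0, smul_smul] at hc
    have h1 := hR.full _ hc i
    exact (mul_eq_zero.1 h1).resolve_right (hgI i).1
  obtain ⟨t, ht, hli⟩ := exists_ne_zero_li B Wq h0
  refine ⟨fun a b => if b = 0 then t * P a 0 else t ^ W * P a 1, ?_⟩
  have hind : ∀ c : Fin S.card → K, ∑ i, c i • g i ∈
      ptJ (fun a b => if b = 0 then t * P a 0 else t ^ W * P a 1) w → ∀ i, c i = 0 := by
    intro c hc i
    have h1 := scl_mem t (t ^ W) hc
    rw [map_sum] at h1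
    simp only [map_smul, hvs, smul_smul] at h1
    have h2 := Fintype.linearIndependent_iff.1 hli (fun i => c i * t ^ wt (enumM S i)) (by
      have h3 : Ideal.Quotient.mkₐ K (ptJ P w) (∑ i, (c i * t ^ wt (enumM S i)) •
          ∑ k ∈ Finset.range (B + 1), t ^ k • v i k) = 0 := by
        rw [Ideal.Quotient.mkₐ_eq_mk, Ideal.Quotient.eq_zero_iff_mem]
        exact h1
      rw [← h3, map_sum]
      refine Finset.sum_congr rfl fun i _ => ?_
      rw [map_smul, map_sum]
      congr 1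
      exact Finset.sum_congr rfl fun k _ => by rw [hWq, map_smul]) i
    exact (mul_eq_zero.1 h2).resolve_right (pow_ne_zero _ ht)
  intro f hf hfJ
  obtain ⟨c, hc⟩ := span_of_li g hgU
    (fun c hc => hind c (by rw [hc]; exact Ideal.zero_mem _))
    { toFun := fun f i => cf f (enumM S i)
      map_add' := fun f f' => funext fun i => cf_add _ _ _
      map_smul' := fun c f => funext fun i => cf_smul _ _ _ } (fun f hf h0 => by
      by_contra hne
      obtain ⟨p, hp, hp'⟩ := hS1 f hf hne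
      obtain ⟨i, rfl⟩ := enumM_surj S hp
      exact hp' (congrFun h0 i)) f hf
  have h3 := hind c (by rw [hc]; exact hfJ)
  rw [← hc]
  exact Finset.sum_eq_zero fun i _ => by rw [h3 i, zero_smul]

end Pool.Agent.H643Z.Ses
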